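import Mathlib
import Pool.Agent.Helper894.Div.Ex
import Pool.Agent.Helper894.Div.Bridge

set_option autoImplicit false

namespace Pool.Agent.Results.MP_19149c_co.FlatBounds

open Module

/-- No `2k+2` points of `S` lie in a common `k`-flat (a nonempty affine subspace of dimension
`k`). -/
def FlatCondition {d : ℕ} (k : ℕ) (S : Finset (EuclideanSpace ℝ (Fin d))) : Prop :=
  ∀ F : AffineSubspace ℝ (EuclideanSpace ℝ (Fin d)),
    (F : Set (EuclideanSpace ℝ (Fin d))).Nonempty → finrank ℝ F.direction = k →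
    ∀ T : Finset (EuclideanSpace ℝ (Fin d)), T ⊆ S → (∀ x ∈ T, x ∈ F) → T.card < 2 * k + 2

/-- `S` is `(2,k)`-divisible: it splits into two disjoint parts whose convex hulls meet in a
(nonempty) set whose affine hull has dimension at least `k`. -/
def TwoDivisible {d : ℕ} (k : ℕ) (S : Finset (EuclideanSpace ℝ (Fin d))) : Prop :=
  ∃ A B : Finset (EuclideanSpace ℝ (Fin d)), A ∪ B = S ∧ Disjoint A B ∧
    (convexHull ℝ (A : Set (EuclideanSpace ℝ (Fin d))) ∩
      convexHull ℝ (B : Set (EuclideanSpace ℝ (Fin d)))).Nonempty ∧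
    k ≤ finrank ℝ (vectorSpan ℝ (convexHull ℝ (A : Set (EuclideanSpace ℝ (Fin d))) ∩
      convexHull ℝ (B : Set (EuclideanSpace ℝ (Fin d)))))

/-- The set of all `N` such that every finite `S ⊆ ℝ^d` with at least `N` points, no `2k+2` of
them in a common `k`-flat, is `(2,k)`-divisible. -/
def Good (k d : ℕ) : Set ℕ :=
  {N | ∀ S : Finset (EuclideanSpace ℝ (Fin d)), FlatCondition k S → N ≤ S.card →
    TwoDivisible k S}

/-- `n(k,d)` is the least member of `Good k d`. -/
noncomputable def n (k d : ℕ) : ℕ := sInf (Good k d)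

/-- Doignon's bound `α(k,d) = (d-k+2)k+2`. -/
def alpha (k d : ℕ) : ℕ := (d - k + 2) * k + 2

lemma div_iff {d k : ℕ} (S : Finset (EuclideanSpace ℝ (Fin d))) :
    TwoDivisible k S ↔ Pool.Agent.Helper894.Div.Dep.Div2 k S := by
  classical
  unfold TwoDivisible Pool.Agent.Helper894.Div.Dep.Div2
  constructor
  · rintro ⟨A, B, h1, h2⟩
    refine ⟨A, B, ?_, h2⟩
    rw [← h1]
  · rintro ⟨A, B, h1, h2⟩
    refine ⟨A, B, ?_, h2⟩
    rw [← h1]

theorem good_upper (k d : ℕ) (hk : 3 ≤ k) (hkd : k + 1 ≤ d) : 2 * d + 2 * k - 3 ∈ Good k d := by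
  classical
  intro S hS hc
  rw [div_iff]
  refine Pool.Agent.Helper894.Div.Main.upper d k hk (by omega) finrank_euclideanSpace_fin S ?_ hc
  exact Pool.Agent.Helper894.Div.Bridge.bridge k (by rw [finrank_euclideanSpace_fin]; omega) S hS

theorem good_lower (k d N : ℕ) (hk : 2 ≤ k) (hkd : k + 2 ≤ d) (hn : N ∈ Good k d) :
    2 * d + 2 ≤ N ∧ d + 2 * k ≤ N := by
  classical
  constructor
  · by_contra hlt
    have hD := Pool.Agent.Helper894.Div.Ex.cross_not_div d k (by omega)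
    refine hD ((div_iff _).mp (hn _ ?_ ?_))
    · intro F _ hF T hT hTF
      have := Pool.Agent.Helper894.Div.Ex.cross_flat d k F hF T hT hTF
      omega
    · rw [Pool.Agent.Helper894.Div.Ex.card_cross]
      omega
  · by_contra hlt
    have hD := Pool.Agent.Helper894.Div.Ex.ex2_not_div d k hk hkd
    refine hD ((div_iff _).mp (hn _ ?_ ?_))
    · intro F _ hF T hT hTF
      have := Pool.Agent.Helper894.Div.Ex.ex2_flat d k (by omega) hkd F hF T hT hTF
      omega
    · rw [Pool.Agent.Helper894.Div.Ex.card_ex2 d k (by omega) (by omega)]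
      omega

/-- For `3 ≤ k ≤ d - 2`: `max (2d+2) (d+2k) ≤ n(k,d) ≤ 2d+2k-3 < α(k,d)`. -/
theorem result : ∀ k d : ℕ, 3 ≤ k → k + 2 ≤ d →
    IsLeast (Good k d) (n k d) ∧
    2 * d + 2 ≤ n k d ∧ d + 2 * k ≤ n k d ∧
    n k d ≤ 2 * d + 2 * k - 3 ∧
    2 * d + 2 * k - 3 < alpha k d ∧
    n k d < alpha k d := by
  intro k d hk hkd
  have hne : (Good k d).Nonempty := ⟨_, good_upper k d hk (by omega)⟩
  have hmem : n k d ∈ Good k d := Nat.sInf_mem hne
  have hlow := good_lower k d _ (by omega) hkd hmem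
  have hup : n k d ≤ 2 * d + 2 * k - 3 := Nat.sInf_le (good_upper k d hk (by omega))
  have hlt : 2 * d + 2 * k - 3 < alpha k d := by
    unfold alpha
    obtain ⟨e, rfl⟩ : ∃ e, d = k + 2 + e := ⟨d - (k + 2), by omega⟩
    obtain ⟨f, rfl⟩ : ∃ f, k = 3 + f := ⟨k - 3, by omega⟩
    have h1 : 3 + f + 2 + e - (3 + f) + 2 = e + 4 := by omega
    rw [h1]
    have h2 : 2 * (3 + f + 2 + e) + 2 * (3 + f) - 3 = 4 * f + 2 * e + 13 := by omega
    rw [h2]
    nlinarith [Nat.zero_le (e * f)]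
  exact ⟨⟨hmem, fun N hN => Nat.sInf_le hN⟩, hlow.1, hlow.2, hup, hlt, lt_of_le_of_lt hup hlt⟩

end Pool.Agent.Results.MP_19149c_co.FlatBounds
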